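import Pool.Agent.Helper75.PX.Stmts

/-! Row C3 of project PX (MP_ce4989_al): central simple algebras of degree three. -/

set_option autoImplicit false

universe u

open Module TensorProduct

namespace Pool.Agent.Helper51.PX

open Pool.Agent.Helper75.PX

/-- the generators are carried over by algebra homomorphisms -/
theorem D3_map {K A B : Type*} [Field K] [Ring A] [Algebra K A] [Ring B] [Algebra K B]
    (f : A →ₐ[K] B) {ζ : K} {i j : A} {c d : K} (h : D3 ζ i j c d) : D3 ζ (f i) (f j) c d where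
  hi := by rw [← map_mul, ← map_mul, h.hi, AlgHom.commutes]
  hj := by rw [← map_mul, ← map_mul, h.hj, AlgHom.commutes]
  hij := by rw [← map_mul, ← map_mul, h.hij, map_smul]
  c0 := h.c0
  d0 := h.d0

/-- the matrices -/
theorem D3_mat {K : Type*} [Field K] (ζ : K) (hζ : ζ ^ 2 + ζ + 1 = 0) :
    D3 ζ (!![1, 0, 0; 0, ζ, 0; 0, 0, ζ ^ 2] : Matrix (Fin 3) (Fin 3) K)
      (!![0, 1, 0; 0, 0, 1; 1, 0, 0] : Matrix (Fin 3) (Fin 3) K) 1 1 := by
  have h3 : ζ ^ 3 = 1 := by linear_combination (ζ - 1) * hζ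
  refine ⟨?_, ?_, ?_, one_ne_zero, one_ne_zero⟩
  · rw [map_one]
    ext r s
    fin_cases r <;> fin_cases s <;> simp [Matrix.mul_apply, Fin.sum_univ_three] <;>
      first
        | linear_combination h3
        | linear_combination (ζ ^ 3 + 1) * h3
  · rw [map_one]
    ext r s
    fin_cases r <;> fin_cases s <;> simp [Matrix.mul_apply, Fin.sum_univ_three]
  · ext r s
    fin_cases r <;> fin_cases s <;> simp [Matrix.mul_apply, Fin.sum_univ_three] <;>
      first
        | ring1
        | linear_combination h3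
        | linear_combination -h3

theorem st_C3 (h1 : ST_WA.{u}) (h2 : ST_I3.{u}) (h3 : ST_J3.{u}) : ST_C3.{u} := by
  intro K A _ _ _ _ _ ζ hA h3' hζ
  haveI : FiniteDimensional K A := FiniteDimensional.of_finrank_pos (by omega)
  obtain ⟨n, D, _, _, hn, _, _, hf, ⟨e⟩⟩ := h1 K A
  rw [hA] at hf
  have hD : 0 < finrank K D := finrank_pos
  have hn3 : n = 1 ∨ n = 3 := by
    have hle : n ≤ 3 := by
      by_contra hc
      have : 4 ≤ n := by omega
      nlinarith
    interval_cases n
    · exact Or.inl rfl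
    · omega
    · exact Or.inr rfl
  rcases hn3 with rfl | rfl
  · have hD9 : finrank K D = 9 := by omega
    obtain ⟨i, c, hi, hni⟩ := h2 K D hD9 h3'
    obtain ⟨j, d, hj⟩ := h3 K D ζ hD9 h3' hζ i c hi hni
    have k1 := D3_map (Matrix.scalarAlgHom (Fin 1) K) hj
    exact ⟨_, _, _, _, D3_map e.symm.toAlgHom k1⟩
  · have k1 := D3_map ((Algebra.ofId K D).mapMatrix (m := Fin 3)) (D3_mat ζ hζ)
    exact ⟨_, _, _, _, D3_map e.symm.toAlgHom k1⟩

end Pool.Agent.Helper51.PX
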