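import Pool.Agent.Helper75.PX.Stmts6

set_option autoImplicit false

universe u

open Module TensorProduct

namespace Pool.Agent.Helper75.PX

theorem ee_add (h2 : ST_E2M.{u}) {R : Type u} [CommRing R] (M N : Matrix (Fin 4) (Fin 4) R) :
    (M + N).charpoly.coeff 2 = M.charpoly.coeff 2 + N.charpoly.coeff 2 +
      Matrix.trace M * Matrix.trace N - Matrix.trace (M * N) := by
  rw [h2 R (M + N), h2 R M, h2 R N]
  simp only [Matrix.trace, Matrix.diag_apply, Matrix.mul_apply, Matrix.add_apply,
    Fin.sum_univ_four]
  ring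

theorem ee_nil {R : Type u} [Field R] (N : Matrix (Fin 4) (Fin 4) R) (hN : N * N = 0) :
    N.charpoly.coeff 2 = 0 ∧ Matrix.trace N = 0 := by
  have h1 : IsNilpotent N := ⟨2, by rw [pow_two, hN]⟩
  have h2 := (Matrix.isNilpotent_charpoly_sub_pow_of_isNilpotent h1).eq_zero
  rw [sub_eq_zero, Fintype.card_fin] at h2
  refine ⟨?_, ?_⟩
  · rw [h2, Polynomial.coeff_X_pow]; norm_num
  · exact (Matrix.isNilpotent_trace_of_isNilpotent h1).eq_zero

theorem st_EE (h1 : ST_CPR.{u}) (h2 : ST_E2M.{u}) : ST_EE.{u} := by
  classical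
  intro K D _ _ _ _ hfr htwo
  obtain ⟨Ψ, hspan, hch⟩ := h1 K D 4 (by norm_num) (by rw [hfr]; norm_num)
  have inj : Function.Injective (algebraMap K (AlgebraicClosure K)) :=
    (algebraMap K (AlgebraicClosure K)).injective
  choose P hP using hch
  have hpos : 0 < finrank K D := by rw [hfr]; norm_num
  have : FiniteDimensional K D := Module.finite_of_finrank_pos hpos
  have ht : ∀ x, Matrix.trace (Ψ x) = algebraMap K (AlgebraicClosure K) (-(P x).coeff 3) := by
    intro x
    have h8 : Matrix.trace (Ψ x) = -(Ψ x).charpoly.coeff 3 := by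
      simpa using Matrix.trace_eq_neg_charpoly_coeff (Ψ x)
    rw [h8, hP, Polynomial.coeff_map, map_neg]
  let τ : D →ₗ[K] K :=
    { toFun := fun x => -(P x).coeff 3
      map_add' := fun x y => inj (by rw [← ht, map_add, Matrix.trace_add, ht, ht, map_add])
      map_smul' := fun k x => inj (by
        rw [← ht, map_smul, Matrix.trace_smul, ht, RingHom.id_apply, smul_eq_mul, map_mul,
          Algebra.smul_def]) }
  have hτ : ∀ x, Matrix.trace (Ψ x) = algebraMap K (AlgebraicClosure K) (τ x) := ht
  have he : ∀ x, (Ψ x).charpoly.coeff 2 = algebraMap K (AlgebraicClosure K) ((P x).coeff 2) := by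
    intro x
    rw [hP, Polynomial.coeff_map]
  refine ⟨τ, fun x => (P x).coeff 2, ?_, ?_, ?_, ?_, ?_⟩
  · by_contra hcon
    push Not at hcon
    have h3 : Submodule.span (AlgebraicClosure K) (Set.range Ψ) ≤
        LinearMap.ker (Matrix.traceLinearMap (Fin 4) (AlgebraicClosure K)
          (AlgebraicClosure K)) := by
      rw [Submodule.span_le]
      rintro _ ⟨x, rfl⟩
      rw [SetLike.mem_coe, LinearMap.mem_ker, Matrix.traceLinearMap_apply, hτ, hcon, map_zero]
    rw [hspan] at h3
    have h4 : (Matrix.diagonal (fun i : Fin 4 => if i = 0 then (1 : AlgebraicClosure K) else 0)) ∈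
        LinearMap.ker (Matrix.traceLinearMap (Fin 4) (AlgebraicClosure K)
          (AlgebraicClosure K)) := h3 trivial
    rw [LinearMap.mem_ker, Matrix.traceLinearMap_apply, Matrix.trace_diagonal] at h4
    simp at h4
  · intro x y
    apply inj
    rw [← hτ, ← hτ, map_mul, map_mul, Matrix.trace_mul_comm]
  · intro x y
    apply inj
    show algebraMap K (AlgebraicClosure K) ((P (x + y)).coeff 2) = _
    rw [map_sub, map_add, map_add, map_mul, ← he, ← he, ← he, ← hτ, ← hτ, ← hτ, map_add, map_mul]
    exact ee_add h2 _ _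
  · intro v hv
    have hPm : (P v).Monic := by
      refine Polynomial.monic_of_injective inj ?_
      rw [← hP]
      exact Matrix.charpoly_monic _
    have hPd : (P v).natDegree = 4 := by
      have h5 : (Ψ v).charpoly.natDegree = 4 := by
        rw [Matrix.charpoly_natDegree_eq_dim, Fintype.card_fin]
      rwa [hP, Polynomial.natDegree_map] at h5
    have hz : Polynomial.aeval v (P v) = 0 := by
      apply (Ψ : D →+* Matrix (Fin 4) (Fin 4) (AlgebraicClosure K)).injective
      show Ψ (Polynomial.aeval v (P v)) = Ψ 0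
      rw [map_zero, ← Polynomial.aeval_algHom_apply,
        ← Polynomial.aeval_map_algebraMap (AlgebraicClosure K), ← hP]
      exact Matrix.aeval_self_charpoly _
    have hint : IsIntegral K v := Algebra.IsIntegral.isIntegral v
    have hmon : (minpoly K v).Monic := minpoly.monic hint
    have hdvd : minpoly K v ∣ P v := minpoly.dvd K v hz
    have heq := Polynomial.eq_of_monic_of_dvd_of_natDegree_le hmon hPm hdvd (by rw [hPd, hv])
    rw [← heq]
    refine ⟨?_, rfl⟩
    show (P v).coeff 3 = -(-(P v).coeff 3)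
    rw [neg_neg]
  · intro v k hvk
    apply inj
    show algebraMap K (AlgebraicClosure K) ((P v).coeff 2) = _
    rw [← he, map_zero]
    have h2' : (2 : AlgebraicClosure K) = 0 := by
      have h := congrArg (algebraMap K (AlgebraicClosure K)) htwo
      rwa [map_ofNat, map_zero] at h
    obtain ⟨s, hs⟩ := IsAlgClosed.exists_pow_nat_eq
      (algebraMap K (AlgebraicClosure K) k) (n := 2) (by norm_num)
    have hvv : Ψ v * Ψ v = (s ^ 2) • (1 : Matrix (Fin 4) (Fin 4) (AlgebraicClosure K)) := by
      rw [← map_mul, hvk, AlgHom.commutes, hs, Matrix.algebraMap_eq_diagonal]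
      ext i j
      rw [Matrix.smul_apply, Matrix.one_apply, Matrix.diagonal_apply]
      by_cases hij : i = j <;> simp [hij]
    set S : Matrix (Fin 4) (Fin 4) (AlgebraicClosure K) := s • 1 with hS
    set N := Ψ v - S with hN
    have hNN : N * N = 0 := by
      have e1 : N * N = Ψ v * Ψ v + (s ^ 2) • 1 - (2 * s) • Ψ v := by
        rw [hN, hS, sub_mul, mul_sub, mul_sub, smul_mul_assoc, one_mul, mul_smul_comm, mul_one,
          smul_mul_assoc, one_mul, smul_smul, two_mul, add_smul, pow_two]
        abel
      rw [e1, hvv, h2', zero_mul, zero_smul, sub_zero, ← two_smul (AlgebraicClosure K), h2',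
        zero_smul]
    obtain ⟨n1, n2⟩ := ee_nil N hNN
    have hΨ : Ψ v = N + S := by rw [hN, sub_add_cancel]
    have hSc : S.charpoly.coeff 2 = 0 := by
      rw [h2 _ S]
      simp only [hS, Matrix.smul_apply, Matrix.one_apply, smul_eq_mul]
      simp
      linear_combination (3 * s * s) * h2'
    have hNS : Matrix.trace (N * S) = 0 := by
      rw [hS, mul_smul_comm, mul_one, Matrix.trace_smul, n2, smul_zero]
    rw [hΨ, ee_add h2, n1, n2, hSc, hNS]
    ring

end Pool.Agent.Helper75.PX
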