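import Pool.Agent.Helper75.PX.Stmts2

/-! Row OPP of project PX (MP_ce4989_al): the opposite algebra. -/

set_option autoImplicit false

universe u

open Module TensorProduct

namespace Pool.Agent.Helper51.PX

open Pool.Agent.Helper75.PX

theorem st_OPP (h1 : ST_TCS.{u}) : ST_OPP.{u} := by
  intro K B _ _ _ _ _ _
  have hfin : FiniteDimensional K Bᵐᵒᵖ := Module.Finite.equiv (MulOpposite.opLinearEquiv K)
  have hfr : finrank K Bᵐᵒᵖ = finrank K B := (MulOpposite.opLinearEquiv K).symm.finrank_eq
  refine ⟨inferInstance, inferInstance, hfr, ?_⟩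
  obtain ⟨_, hs⟩ := h1 K B Bᵐᵒᵖ
  have hnt : Nontrivial (Module.End K B) := inferInstance
  have inj : Function.Injective (AlgHom.mulLeftRight K B) :=
    RingHom.injective (AlgHom.mulLeftRight K B).toRingHom
  have hdim : finrank K (B ⊗[K] Bᵐᵒᵖ) = finrank K (Module.End K B) := by
    rw [Module.finrank_tensorProduct, hfr]
    exact (Module.finrank_linearMap K K B B).symm
  have surj : Function.Surjective (AlgHom.mulLeftRight K B) :=
    (LinearMap.injective_iff_surjective_of_finrank_eq_finrank
      (f := (AlgHom.mulLeftRight K B).toLinearMap) hdim).mp inj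
  exact ⟨(Algebra.TensorProduct.comm K Bᵐᵒᵖ B).trans
    ((AlgEquiv.ofBijective (AlgHom.mulLeftRight K B) ⟨inj, surj⟩).trans
      (algEquivMatrix (finBasis K B)))⟩

end Pool.Agent.Helper51.PX
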